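import Pool.Agent.Helper2_Pak.Stmts
import Pool.Agent.Helper60_Pack.C12

/-!
# PAK1 module C1, helper97: a unit square in the room of a lever
-/

namespace Pool.Agent.Helper2_Pak.H97

open Pool.Agent.Helper60_Pack (centre_bound finish)

/-- a point whose components are close to those of `m` -/
theorem close {s : ℝ} {m w : ℂ} (hs : 0 < s) (hs1 : s ≤ 1 / 1000)
    (h1 : |w.re - m.re| ≤ 29 / 100) (h2 : |w.im - m.im| ≤ 2 * s) : ‖w - m‖ < 1 / 2 - s := by
  have h3 : ‖w - m‖ ^ 2 < (1 / 2 - s) ^ 2 := by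
    rw [Complex.sq_norm, Complex.normSq_apply, Complex.sub_re, Complex.sub_im]
    have a1 := abs_mul_abs_self (w.re - m.re)
    have a2 := abs_mul_abs_self (w.im - m.im)
    have b1 : |w.re - m.re| * |w.re - m.re| ≤ 29 / 100 * (29 / 100) :=
      mul_self_le_mul_self (abs_nonneg _) h1
    have b2 : |w.im - m.im| * |w.im - m.im| ≤ 2 * s * (2 * s) :=
      mul_self_le_mul_self (abs_nonneg _) h2
    nlinarith only [hs, hs1, a1, a2, b1, b2]
  exact lt_of_pow_lt_pow_left₀ 2 (by linarith only [hs1]) h3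

theorem c1 : C1Stmt := by
  intro s d m u z α β hd hs hs1 hu hA hB hC hz1 hz2 hz hα hβ
  obtain ⟨h1, -⟩ := centre_bound hs hu hz1 hz2 hz hα hβ
  have hd1 : 14 / 32 ≤ d := by rcases hd with rfl | rfl <;> norm_num
  have hd2 : d ≤ 18 / 32 := by rcases hd with rfl | rfl <;> norm_num
  have hq : m.re ^ 2 + m.im ^ 2 ≤ 505 / 1000 := by nlinarith only [hs1, h1, hs]
  have hre1 : m.re ≤ 711 / 1000 := by nlinarith only [hs1, h1, hs, sq_nonneg m.im]
  have hre2 : -(711 / 1000) ≤ m.re := by nlinarith only [hs1, h1, hs, sq_nonneg m.im]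
  have him1 : m.im ≤ 711 / 1000 := by nlinarith only [hq, sq_nonneg m.re]
  have him2 : -(711 / 1000) ≤ m.im := by nlinarith only [hs1, h1, hs, sq_nonneg m.re]
  -- points below
  have hdown : ∀ y : ℝ, -1 + s ≤ y → y ≤ -s →
      ∃ x : ℝ, (|x - m.re| ≤ s ∨ (m.re < -d + s ∧ |x - m.re| ≤ 29 / 100)) ∧
        1 / 2 - s ≤ ‖(⟨x, y⟩ : ℂ) - m‖ := by
    intro y hy1 hy2
    by_cases c1 : m.re < -d + s
    · refine ⟨-d + s, Or.inr ⟨c1, ?_⟩, hB ⟨-d + s, y⟩ le_rfl ?_ hy1 hy2⟩
      · rw [abs_le]
        constructor <;> linarith only [c1, hs1, hd1, hre2]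
      · change -d + s ≤ 1 - d - s
        linarith only [hs1]
    · push Not at c1
      by_cases c2 : m.re ≤ 1 - d - s
      · exact ⟨m.re, Or.inl (by simp; linarith only [hs]), hB ⟨m.re, y⟩ c1 c2 hy1 hy2⟩
      · push Not at c2
        by_cases c3 : m.re ≤ 1 - d
        · refine ⟨1 - d - s, Or.inl ?_, hB ⟨1 - d - s, y⟩ ?_ le_rfl hy1 hy2⟩
          · rw [abs_le]
            constructor <;> linarith only [c3, hs, c2]
          · change -d + s ≤ 1 - d - s
            linarith only [hs1]
        · push Not at c3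
          by_cases c4 : m.re ≤ 1 - d + s
          · refine ⟨1 - d + s, Or.inl ?_, hC ⟨1 - d + s, y⟩ le_rfl ?_ hy1 hy2⟩
            · rw [abs_le]
              constructor <;> linarith only [hs, c4, c3]
            · change 1 - d + s ≤ 2 - d - s
              linarith only [hs1]
          · push Not at c4
            refine ⟨m.re, Or.inl (by simp; linarith only [hs]), hC ⟨m.re, y⟩ c4.le ?_ hy1 hy2⟩
            change m.re ≤ 2 - d - s
            linarith only [hs1, hd2, hre1]
  -- the imaginary part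
  have hb : s ≤ m.im := by
    by_contra hcon
    push Not at hcon
    have hwi1 : -1 + s ≤ min m.im (-s) := le_min (by linarith only [hs1, him2]) (by linarith only [hs1])
    have hwi2 : min m.im (-s) ≤ -s := min_le_right _ _
    have hwi3 : |min m.im (-s) - m.im| ≤ 2 * s := by
      rw [abs_le]
      constructor
      · rcases min_cases m.im (-s) with ⟨h, -⟩ | ⟨h, -⟩ <;> rw [h] <;> linarith only [hs, hcon]
      · have := min_le_left m.im (-s)
        linarith only [hs, this]
    obtain ⟨x, hx1, hx2⟩ := hdown _ hwi1 hwi2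
    have hx3 : |x - m.re| ≤ 29 / 100 := by
      rcases hx1 with h | h
      · linarith only [hs1, h]
      · exact h.2
    exact absurd hx2 (not_le.2 (close hs hs1 hx3 hwi3))
  -- the real part
  have ha : s ≤ m.re := by
    by_contra hcon
    push Not at hcon
    by_cases c1 : m.re < -d + s
    · have h5 := hA ⟨-d + s, m.im⟩ le_rfl (by change -d + s ≤ -s; linarith only [hs1, hd1]) hb
        (by change m.im ≤ 1 - s; linarith only [hs1, him1])
      have h6 : ‖(⟨-d + s, m.im⟩ : ℂ) - m‖ < 1 / 2 - s := by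
        refine close hs hs1 ?_ ?_
        · rw [abs_le]
          constructor <;> simp only <;> linarith only [c1, hs1, hd1, hre2]
        · simp only [sub_self, abs_zero]
          linarith only [hs]
      linarith only [h5, h6]
    · push Not at c1
      have h5 := hA ⟨min m.re (-s), m.im⟩ (le_min c1 (by linarith only [hs1, hd1])) (min_le_right _ _) hb
        (by change m.im ≤ 1 - s; linarith only [hs1, him1])
      have h6 : ‖(⟨min m.re (-s), m.im⟩ : ℂ) - m‖ < 1 / 2 - s := by
        refine close hs hs1 ?_ ?_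
        · rw [abs_le]
          simp only
          constructor
          · rcases min_cases m.re (-s) with ⟨h, -⟩ | ⟨h, -⟩ <;> rw [h] <;> linarith only [hs1, hcon]
          · have := min_le_left m.re (-s)
            linarith only [this]
        · simp only [sub_self, abs_zero]
          linarith only [hs]
      linarith only [h5, h6]
  -- sharp bounds
  have ha' : 1 / 2 - 3 * s ≤ m.re := by
    have h5 := hA ⟨-s, m.im⟩ (by change -d + s ≤ -s; linarith only [hs1, hd1]) le_rfl hb
      (by change m.im ≤ 1 - s; linarith only [hs1, him1])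
    have h6 : ‖(⟨-s, m.im⟩ : ℂ) - m‖ = m.re + s := by
      have h7 : (⟨-s, m.im⟩ : ℂ) - m = ((-(m.re + s) : ℝ) : ℂ) := by
        apply Complex.ext
        · simp
          ring
        · simp
      rw [h7, Complex.norm_real, Real.norm_eq_abs, abs_neg, abs_of_nonneg (by linarith only [hs, ha])]
    linarith only [hs, h5, h6]
  have hb' : 1 / 2 - 3 * s ≤ m.im := by
    obtain ⟨x, hx1, hx2⟩ := hdown (-s) (by linarith only [hs1]) le_rfl
    have hx3 : |x - m.re| ≤ s := by
      rcases hx1 with h | h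
      · exact h
      · linarith only [hd1, ha, h.1]
    have h6 : ‖(⟨x, -s⟩ : ℂ) - m‖ ^ 2 = (x - m.re) ^ 2 + (m.im + s) ^ 2 := by
      rw [Complex.sq_norm, Complex.normSq_apply, Complex.sub_re, Complex.sub_im]
      ring
    have h7 : (1 / 2 - s) ^ 2 ≤ ‖(⟨x, -s⟩ : ℂ) - m‖ ^ 2 :=
      pow_le_pow_left₀ (by linarith only [hs1]) hx2 2
    have h8 : (x - m.re) ^ 2 ≤ s ^ 2 := sq_le_sq' (abs_le.1 hx3).1 (abs_le.1 hx3).2
    rw [h6] at h7
    by_contra hcon
    push Not at hcon
    have h9 : (m.im + s) ^ 2 < (1 / 2 - 2 * s) ^ 2 :=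
      pow_lt_pow_left₀ (by linarith only [hcon]) (by linarith only [hs, hb]) two_ne_zero
    nlinarith only [hs, h7, h8, h9, hs1]
  obtain ⟨r1, r2, k, hk, r3⟩ := finish hs hs1 hu hz1 hz2 hz hα hβ ha' hb'
  exact ⟨by linarith only [hs, r1], by linarith only [hs, r2], k, hk, by linarith only [hs, r3]⟩

end Pool.Agent.Helper2_Pak.H97
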