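import Pool.Agent.Helper2_Pak.StmtsT
import Pool.Agent.Helper91_Pack.LayGen

/-!
# PAK1 module T10, helper97: the number of the pieces
-/

namespace Pool.Agent.Helper2_Pak.H97

open Pool.Agent.Helper2_Pack Pool.Agent.Helper53_CookLevin Pool.Agent.Helper53_Chan
open Pool.Agent.Helper91_Pack (NG FG SG loopN NG.up NG.const NG.len0 NG.add NG.mul NG.congr SG.up
  sg_first)

variable {k : ℕ}

theorem flatMap_rep (f : ℕ → ℕ) (n : ℕ) :
    (List.range n).flatMap (fun i => List.replicate (f i) uu) =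
      List.replicate (∑ i ∈ Finset.range n, f i) uu := by
  induction n with
  | zero => rfl
  | succ n ih =>
    rw [List.range_succ, List.flatMap_append, ih, Finset.sum_range_succ, List.replicate_add]
    simp

/-- sums over a range -/
theorem ng_sum {e : (Fin k → List CL) → ℕ} (he : NG k e) {f : ℕ → (Fin k → List CL) → ℕ}
    (h : NG (k + 1) (fun ρ => f (ρ 0).length (ρ ∘ Fin.succ))) :
    NG k (fun ρ => ∑ i ∈ Finset.range (e ρ), f i ρ) := by
  refine PGen.congr (loopN he (K := fun i ρ => List.replicate (f i ρ) uu) h) (fun ρ => ?_)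
  exact flatMap_rep _ _

theorem card_cell (G : Lay) :
    G.K = ∑ c ∈ Finset.range G.M, (G.top c + if (G.kd c).isL then 1 else 0) := by
  unfold Lay.K
  rw [Fintype.card_sum, Fintype.card_sigma, Fintype.card_subtype, Finset.sum_add_distrib,
    Finset.card_filter]
  congr 1
  · simp only [Fintype.card_fin]
    exact Fin.sum_univ_eq_sum_range (fun c => G.top c) G.M
  · exact Fin.sum_univ_eq_sum_range (fun c => if (G.kd c).isL = true then 1 else 0) G.M

theorem t10 (h4 : T4Stmt) : T10Stmt := by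
  have h0 := sg_first
  have h1 := SG.up (k := 1) h0
  obtain ⟨-, aM, -, -⟩ := h4 1 _ (fun _ => 0) h0 (NG.const 0)
  obtain ⟨bn, -, bk, -⟩ := h4 2 _ _ h1 (NG.len0 (k := 1))
  have c1 : NG 2 (fun ρ => 2 * (lay (sysOfWord ((ρ ∘ Fin.succ : Fin 1 → List CL) 0
      |>.filterMap Sum.getLeft?))).n + 1 + (((lay (sysOfWord ((ρ ∘ Fin.succ : Fin 1 → List CL) 0
      |>.filterMap Sum.getLeft?))).kd (ρ 0).length).h + if ((lay (sysOfWord
      ((ρ ∘ Fin.succ : Fin 1 → List CL) 0
      |>.filterMap Sum.getLeft?))).kd (ρ 0).length).isL then 1 else 0)) :=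
    NG.add (NG.add (NG.mul (NG.const 2) bn) (NG.const 1))
      (bk (fun a _ => List.replicate (a.h + if a.isL then 1 else 0) uu)
        (fun a => PGen.const _))
  have c2 := ng_sum aM (f := fun i ρ => 2 * (lay (sysOfWord ((ρ 0).filterMap Sum.getLeft?))).n + 1 +
    (((lay (sysOfWord ((ρ 0).filterMap Sum.getLeft?))).kd i).h +
      if ((lay (sysOfWord ((ρ 0).filterMap Sum.getLeft?))).kd i).isL then 1 else 0)) c1
  refine NG.congr c2 (fun ρ => ?_)
  rw [card_cell]
  refine Finset.sum_congr rfl (fun c _ => ?_)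
  exact (Nat.add_assoc (2 * (lay (sysA ρ)).n + 1) ((lay (sysA ρ)).kd c).h
    (if ((lay (sysA ρ)).kd c).isL = true then 1 else 0)).symm

end Pool.Agent.Helper2_Pak.H97
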