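import Pool.Agent.Helper2_Pak.StmtsT

/-!
# PAK1 module TL, helper97: calculus for word generators of polygons
-/

namespace Pool.Agent.Helper2_Pak.H97

open Pool.Agent.Helper2_Pack Pool.Agent.Helper53_CookLevin Pool.Agent.Helper53_Chan
open Pool.Agent.Helper91_Pack (NG FG SG loopN letN NG.up NG.sub NG.const NG.len0)

variable {k : ℕ}

theorem LG.append {w w' : (Fin k → List CL) → List Letter} (h : LG k w) (h' : LG k w') :
    LG k (fun ρ => w ρ ++ w' ρ) :=
  PGen.congr (PGen.append h h') (fun ρ => by rw [List.map_append])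

theorem LG.congr {w w' : (Fin k → List CL) → List Letter} (h : LG k w) (hw : ∀ ρ, w ρ = w' ρ) :
    LG k w' := by
  have : w = w' := funext hw
  rwa [← this]

theorem LG.loop {e : (Fin k → List CL) → ℕ} (he : NG k e)
    {K : ℕ → (Fin k → List CL) → List Letter}
    (h : LG (k + 1) (fun ρ => K (ρ 0).length (ρ ∘ Fin.succ))) :
    LG k (fun ρ => (List.range (e ρ)).flatMap (fun i => K i ρ)) := by
  refine PGen.congr (loopN he (K := fun i ρ => (K i ρ).map Sum.inr) h) (fun ρ => ?_)
  rw [List.map_flatMap]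

/-- substitution of a number for the length of the first variable -/
theorem subst {e : (Fin (k + 1) → List CL) → ℕ} (he : NG (k + 1) e)
    {K : ℕ → (Fin k → List CL) → List CL}
    (h : PGen (k + 1) (fun ρ => K (ρ 0).length (ρ ∘ Fin.succ))) :
    PGen (k + 1) (fun ρ => K (e ρ) (ρ ∘ Fin.succ)) := by
  have h0 : PGen (k + 2) (fun ρ : Fin (k + 2) → List CL =>
      (fun ρ' : Fin (k + 1) → List CL => K (ρ' 0).length (ρ' ∘ Fin.succ))
        (ρ ∘ (Matrix.vecCons 0 (fun i => i.succ.succ)))) := PGen.rename _ h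
  exact letN he (K := fun i ρ => K i (ρ ∘ Fin.succ)) h0

theorem rev_range (n : ℕ) : (List.range n).reverse = (List.range n).map (fun i => n - 1 - i) := by
  rw [List.range_eq_range', List.reverse_range', ← List.range_eq_range']
  apply List.map_congr_left
  intro i _
  omega

theorem LG.loopR {e : (Fin k → List CL) → ℕ} (he : NG k e)
    {K : ℕ → (Fin k → List CL) → List Letter}
    (h : LG (k + 1) (fun ρ => K (ρ 0).length (ρ ∘ Fin.succ))) :
    LG k (fun ρ => (List.range (e ρ)).reverse.flatMap (fun i => K i ρ)) := by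
  have h1 : LG (k + 1) (fun ρ => K (e (ρ ∘ Fin.succ) - 1 - (ρ 0).length) (ρ ∘ Fin.succ)) :=
    subst (NG.sub (NG.sub (NG.up he) (NG.const 1)) NG.len0)
      (K := fun i ρ => (K i ρ).map Sum.inr) h
  refine LG.congr (LG.loop he (K := fun i ρ => K (e ρ - 1 - i) ρ) h1) (fun ρ => ?_)
  rw [rev_range, List.flatMap_map]

theorem dWord_append (m : ℕ) (L L' : List DP) : dWord m (L ++ L') = dWord m L ++ dWord m L' := by
  unfold dWord
  rw [List.flatMap_append]

theorem dWord_flatMap (m : ℕ) (l : List ℕ) (L : ℕ → List DP) :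
    dWord m (l.flatMap L) = l.flatMap (fun i => dWord m (L i)) := by
  unfold dWord
  rw [List.flatMap_assoc]

theorem tl (h3 : T3Stmt) : TLStmt := by
  intro k m hm
  refine ⟨?_, ?_, ?_, ?_, ?_⟩
  · intro l
    induction l with
    | nil => exact fun _ => PGen.const []
    | cons p l ih =>
      intro hp
      have h1 := h3 k m (fun ρ => (p ρ).1) hm (fun j hj => (hp p (by simp) j hj).1)
      have h2 := h3 k m (fun ρ => (p ρ).2) hm (fun j hj => (hp p (by simp) j hj).2)
      refine LG.congr (LG.append (LG.append h1 h2)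
        (ih (fun q hq => hp q (List.mem_cons_of_mem _ hq)))) (fun ρ => ?_)
      unfold dWord
      beta_reduce
      rw [List.map_cons, List.flatMap_cons]
  · intro L L' h h'
    exact LG.congr (LG.append h h') (fun ρ => (dWord_append _ _ _).symm)
  · intro e L he h
    refine ⟨LG.congr (LG.loop he (K := fun i ρ => dWord (m ρ) (L i ρ)) h)
      (fun ρ => (dWord_flatMap _ _ _).symm),
      LG.congr (LG.loopR he (K := fun i ρ => dWord (m ρ) (L i ρ)) h)
      (fun ρ => (dWord_flatMap _ _ _).symm)⟩
  · intro α f L hf h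
    exact hf (fun a ρ => (dWord (m ρ) (L a ρ)).map Sum.inr) h
  · intro P _ L L' hP h h'
    refine PGen.congr (Test.ite hP h h') (fun ρ => ?_)
    by_cases hp : P ρ <;> simp [hp]

end Pool.Agent.Helper2_Pak.H97
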