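import Pool.Agent.Helper2_Pak.StmtsK

/-!
# PAK1 module U1, helper97: the layout of a system satisfies the conditions
-/

namespace Pool.Agent.Helper2_Pak.H97

open Pool.Agent.Helper2_Pack (SInst Con)

/-- division by seven -/
theorem seven (c : ℕ) : ∃ b k, k < 7 ∧ c = 7 * b + k :=
  ⟨c / 7, c % 7, Nat.mod_lt _ (by norm_num), (Nat.div_add_mod c 7).symm⟩

/-- the last column of a block -/
theorem col_six (n : ℕ) (B : Blk) : (B.col n 6).1.isW = false ∧ ((B.col n 6).1.isL = false) ∧
    ((B.col n 6).1.isR = false) := by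
  cases B with
  | blank => exact ⟨rfl, rfl, rfl⟩
  | sum right a b c o => cases right <;> exact ⟨rfl, rfl, rfl⟩
  | inv i j => exact ⟨rfl, rfl, rfl⟩

/-- the first column of a block -/
theorem col_zero (n : ℕ) (B : Blk) (j : ℕ) (h : (B.col n 0).1.sp j = true) :
    (B.col n 0).1.isW = true := by
  cases B with
  | blank => simp [Blk.col, Kind.sp] at h
  | sum right a b c o =>
    cases right
    · simp [Blk.col, Kind.sp] at h
    · rfl
  | inv i j => simp [Blk.col, Kind.sp] at h

theorem col_zero_R (n : ℕ) (B : Blk) : (B.col n 0).1.isR = false := by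
  cases B with
  | blank => rfl
  | sum right a b c o => cases right <;> rfl
  | inv i j => rfl

/-- consecutive columns of a block -/
theorem col_succ (n : ℕ) (B : Blk) (k : ℕ) (hk : k + 1 < 7) :
    ((B.col n k).1.isW = true → (B.col n (k + 1)).1.isW = false →
      (B.col n k).1 = .bW ∧ (B.col n (k + 1)).1 = .bV) ∧
    (∀ σ, (B.col n k).1 = .pL σ → (B.col n (k + 1)).1 = .pR σ) ∧
    (∀ σ, (B.col n (k + 1)).1 = .pR σ → (B.col n k).1 = .pL σ) ∧
    (∀ σ, (B.col n k).1 = .pR σ → (B.col n (k + 1)).1.h = 0) ∧
    (∀ j, (B.col n k).1.h < j → j ≤ (B.col n (k + 1)).1.h → (B.col n (k + 1)).1.sp j = true →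
      (B.col n (k + 1)).1.isW = true) ∧
    (∀ j, (B.col n (k + 1)).1.h < j → j ≤ (B.col n k).1.h → (B.col n k).1.sp j = true →
      (B.col n k).1.isW = false) := by
  have hk' : k < 6 := by omega
  cases B with
  | blank => simp [Blk.col, Kind.isW, Kind.h, Kind.sp]
  | sum right a b c o =>
    cases right <;> interval_cases k <;>
      (simp [Blk.col, Kind.isW, Kind.h, Kind.sp]; try omega)
  | inv i j => interval_cases k <;> simp [Blk.col, Kind.isW, Kind.h, Kind.sp]

theorem u1 (h0 : U0Stmt) (h1a : U1aStmt) : U1Stmt := by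
  intro S hS
  obtain ⟨hsum, hinv, -, -, hcol, hT⟩ := h0 S hS
  have hn : (lay S).n = nR S := rfl
  have hM : (lay S).M = 7 * (2 * nT S + 3) := rfl
  have hN : (lay S).N = 2 * nR S + 1 := rfl
  have htop : ∀ c, (lay S).top c = 2 * nR S + 1 + ((lay S).kd c).h := fun _ => rfl
  have hb0 : blk S 0 = .blank := if_pos (Or.inl rfl)
  have hb1 : blk S (2 * nT S + 2) = .blank := if_pos (Or.inr (Or.inr le_rfl))
  have k0 : (lay S).kd 0 = .b0 := by
    have := (hcol 0 0 (by norm_num)).1
    rw [hb0] at this
    exact this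
  have l0 : (lay S).l 0 = 0 := by
    have := (hcol 0 0 (by norm_num)).2
    rw [hb0] at this
    exact this
  have kl : (lay S).kd ((lay S).M - 1) = .b0 := by
    have := (hcol (2 * nT S + 2) 6 (by norm_num)).1
    rw [hb1] at this
    have e : (lay S).M - 1 = 7 * (2 * nT S + 2) + 6 := by omega
    rw [e]
    exact this
  have hspc : ∀ c r, (lay S).spc c r = if r < 2 * nR S + 1 then decide (r % 2 = 1) &&
      decide (r + 1 ≤ 2 * (lay S).l c) else ((lay S).kd c).sp (r - 2 * nR S) := fun _ _ => rfl
  have hpres : ∀ c r, (lay S).pres c r = true ↔ c < (lay S).M ∧ r < (lay S).top c := by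
    intro c r
    unfold Lay.pres
    rw [Bool.and_eq_true, decide_eq_true_iff, decide_eq_true_iff]
  refine ⟨by rw [hn]; unfold nR; omega, by omega, k0, kl, ?_, ?_, ?_, ?_, ?_, ?_, ?_, ?_, h1a S hS⟩
  · -- l_le
    intro c
    obtain ⟨b, k, hk, rfl⟩ := seven c
    rw [(hcol b k hk).2, hn]
    cases hB : blk S b with
    | blank => exact Nat.zero_le _
    | sum right a a' a'' o =>
      obtain ⟨s1, s2, s3, -⟩ := hsum b right a a' a'' o hB
      cases right <;> interval_cases k <;> simp only [Blk.col] <;> omega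
    | inv i j =>
      obtain ⟨s1, s2, -⟩ := hinv b i j hB
      have : nR S = 2 * S.n + 1 := rfl
      interval_cases k <;> simp only [Blk.col] <;> omega
  · -- blank
    intro c hc
    obtain ⟨b, k, hk, rfl⟩ := seven c
    rw [(hcol b k hk).1] at hc
    rw [(hcol b k hk).2]
    cases hB : blk S b with
    | blank => rfl
    | sum right a a' a'' o =>
      rw [hB] at hc
      cases right <;> interval_cases k <;> simp_all [Blk.col]
    | inv i j =>
      rw [hB] at hc
      interval_cases k <;> simp_all [Blk.col]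
  · -- off
    intro c
    obtain ⟨b, k, hk, rfl⟩ := seven c
    rw [(hcol b k hk).1]
    cases hB : blk S b with
    | blank => simp [Blk.col, Kind.off]
    | sum right a a' a'' o =>
      obtain ⟨-, -, -, s1, s2, -⟩ := hsum b right a a' a'' o hB
      cases right <;> interval_cases k <;> simp [Blk.col, Kind.off, s1, s2]
    | inv i j => interval_cases k <;> simp [Blk.col, Kind.off]
  · -- WV
    intro c hw hv _
    obtain ⟨b, k, hk, rfl⟩ := seven c
    rcases Nat.lt_or_ge (k + 1) 7 with h | h
    · have e : 7 * b + k + 1 = 7 * b + (k + 1) := by ring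
      rw [e, (hcol b _ h).1] at hv ⊢
      rw [(hcol b k hk).1] at hw ⊢
      exact (col_succ _ _ k h).1 hw hv
    · have : k = 6 := by omega
      subst this
      rw [(hcol b 6 hk).1, (col_six _ _).1] at hw
      cases hw
  · -- portL
    intro c σ hc hp
    obtain ⟨b, k, hk, rfl⟩ := seven c
    rcases Nat.lt_or_ge (k + 1) 7 with h | h
    · have e : 7 * b + k + 1 = 7 * b + (k + 1) := by ring
      rw [e, (hcol b _ h).1]
      rw [(hcol b k hk).1] at hp
      exact ⟨by omega, (col_succ _ _ k h).2.1 σ hp⟩
    · have : k = 6 := by omega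
      subst this
      have h2 := (col_six (nR S) (blk S b)).2.1
      rw [← (hcol b 6 hk).1, hp] at h2
      cases h2
  · -- portR
    intro c σ hc hp
    obtain ⟨b, k, hk, rfl⟩ := seven c
    rcases Nat.eq_zero_or_pos k with h | h
    · subst h
      have h2 := col_zero_R (nR S) (blk S b)
      rw [← (hcol b 0 hk).1, hp] at h2
      cases h2
    · obtain ⟨k, rfl⟩ : ∃ k', k = k' + 1 := ⟨k - 1, by omega⟩
      refine ⟨by omega, ?_, ?_⟩
      · have e : 7 * b + (k + 1) - 1 = 7 * b + k := by omega
        rw [e, (hcol b k (by omega)).1]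
        rw [(hcol b _ hk).1] at hp
        exact (col_succ _ _ k hk).2.2.1 σ hp
      · rcases Nat.lt_or_ge (k + 1 + 1) 7 with h3 | h3
        · have e : 7 * b + (k + 1) + 1 = 7 * b + (k + 1 + 1) := by ring
          rw [e, (hcol b _ h3).1]
          rw [(hcol b _ hk).1] at hp
          exact (col_succ _ _ (k + 1) h3).2.2.2.1 σ hp
        · have : k = 5 := by omega
          subst this
          have h2 := (col_six (nR S) (blk S b)).2.2
          rw [← (hcol b 6 hk).1, hp] at h2
          cases h2
  · -- wallL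
    intro c r hw hs
    unfold Lay.wallL at hw
    rw [Bool.and_eq_true, Bool.or_eq_true, decide_eq_true_iff, hpres, htop] at hw
    obtain ⟨⟨hc, hr⟩, hw⟩ := hw
    rcases Nat.eq_zero_or_pos c with h | h
    · subst h
      rw [k0] at hr
      change r < 2 * nR S + 1 + 0 at hr
      rw [hspc, if_pos (by omega), l0, Bool.and_eq_true, decide_eq_true_iff,
        decide_eq_true_iff] at hs
      omega
    · obtain ⟨c, rfl⟩ : ∃ c', c = c' + 1 := ⟨c - 1, by omega⟩
      have hw' : ¬ ((lay S).pres c r = true) := by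
        rcases hw with hw | hw
        · omega
        · simpa using hw
      rw [hpres, htop] at hw'
      have hr2 : 2 * nR S + 1 + ((lay S).kd c).h ≤ r := by
        by_contra hcon
        exact hw' ⟨by omega, by omega⟩
      rw [hspc, if_neg (by omega)] at hs
      obtain ⟨b, k, hk, hbk⟩ := seven (c + 1)
      rcases Nat.eq_zero_or_pos k with h3 | h3
      · subst h3
        rw [hbk, (hcol b 0 hk).1] at hs ⊢
        exact col_zero _ _ _ hs
      · obtain ⟨k, rfl⟩ : ∃ k', k = k' + 1 := ⟨k - 1, by omega⟩
        have e : c = 7 * b + k := by omega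
        subst e
        rw [(hcol b k (by omega)).1] at hr2
        have e : 7 * b + k + 1 = 7 * b + (k + 1) := by ring
        rw [e, (hcol b _ hk).1] at hs hr ⊢
        exact (col_succ _ _ k hk).2.2.2.2.1 (r - 2 * nR S) (by omega) (by omega) hs
  · -- wallR
    intro c r hw hs
    unfold Lay.wallR at hw
    rw [Bool.and_eq_true, Bool.and_eq_true, decide_eq_true_iff, Nat.add_sub_cancel, hpres,
      htop] at hw
    obtain ⟨⟨-, hc, hr⟩, hw⟩ := hw
    have hw' : ¬ ((lay S).pres (c + 1) r = true) := by simpa using hw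
    rw [hpres, htop] at hw'
    by_cases hcM : c + 1 < (lay S).M
    · have hr2 : 2 * nR S + 1 + ((lay S).kd (c + 1)).h ≤ r := by
        by_contra hcon
        exact hw' ⟨hcM, by omega⟩
      rw [hspc, if_neg (by omega)] at hs
      obtain ⟨b, k, hk, rfl⟩ := seven c
      rcases Nat.lt_or_ge (k + 1) 7 with h | h
      · have e : 7 * b + k + 1 = 7 * b + (k + 1) := by ring
        rw [e, (hcol b _ h).1] at hr2
        rw [(hcol b k hk).1] at hs hr ⊢
        exact (col_succ _ _ k h).2.2.2.2.2 (r - 2 * nR S) (by omega) (by omega) hs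
      · have : k = 6 := by omega
        subst this
        rw [(hcol b 6 hk).1]
        exact (col_six _ _).1
    · have e : c = (lay S).M - 1 := by omega
      rw [e, kl]
      rfl

end Pool.Agent.Helper2_Pak.H97
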